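import Pool.Agent.TH131.WCub.Defs
import Pool.Agent.TH131.LInd.Defs

/-!
# Independence of `ℓ` of Euler characteristics: definitions
-/

set_option autoImplicit false

open CategoryTheory AlgebraicGeometry

namespace Pool.Agent.TH131.LChi

open Pool.Agent.TH90.Cub Pool.Agent.TH590.JH Pool.Agent.TH131.LInd

/-- The spaces `(Gr^W_w H_c^j(X_{\bar ℚ}, ℚ_ℓ))^{I_p}`, `ℓ ≠ p`, for separated schemes `X` of finite type
over `ℚ`, with the geometric Frobenius `F_p`; `K ℓ` is the field `ℚ_ℓ`. -/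
structure Invariants {p : ℕ} (K : OtherPrimes p → Type) [∀ ℓ, Field (K ℓ)] where
  /-- the space -/
  V : ∀ (ℓ : OtherPrimes p) (w j : ℤ) {X : Scheme.{0}}, (X ⟶ Spec (CommRingCat.of ℚ)) →
    ModuleCat.{0} (K ℓ)
  /-- `F_p` -/
  F : ∀ (ℓ : OtherPrimes p) (w j : ℤ) {X : Scheme.{0}} (f : X ⟶ Spec (CommRingCat.of ℚ)),
    V ℓ w j f →ₗ[K ℓ] V ℓ w j f

namespace Invariants

variable {p : ℕ} {K : OtherPrimes p → Type} [∀ ℓ, Field (K ℓ)] (𝓘 : Invariants K)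

/-- The trace of `F_p^n` on `(Gr^W_w H_c^j(X))^{I_p}`. -/
noncomputable def tr (ℓ : OtherPrimes p) (w j : ℤ) (n : ℕ) {X : Scheme.{0}}
    (f : X ⟶ Spec (CommRingCat.of ℚ)) : K ℓ :=
  traceOf (𝓘.F ℓ w j f ^ n)

/-- `∑_j (-1)^j tr(F_p^n | (Gr^W_w H_c^j(X))^{I_p})`. -/
noncomputable def chi (ℓ : OtherPrimes p) (w : ℤ) (n : ℕ) {X : Scheme.{0}}
    (f : X ⟶ Spec (CommRingCat.of ℚ)) : K ℓ :=
  ∑ᶠ j : ℤ, (-1) ^ j * 𝓘.tr ℓ w j n f

/-- The traces depend only on the isomorphism class of `X` and are `0` for empty `X`. -/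
def Functorial : Prop :=
  (∀ ℓ w n {X Y : Scheme.{0}} (e : X ≅ Y) (g : Y ⟶ Spec (CommRingCat.of ℚ)), FT True ℚ g →
    𝓘.chi ℓ w n (e.hom ≫ g) = 𝓘.chi ℓ w n g) ∧
  ∀ ℓ w n {X : Scheme.{0}} (f : X ⟶ Spec (CommRingCat.of ℚ)), IsEmpty X → 𝓘.chi ℓ w n f = 0

/-- Additivity for `X`, a closed subscheme `Z` and its complement `U`. (The long exact sequences of
the motives `Gr^W_w H_c^j` of `U`, `X`, `Z` split, because the category of pure motives is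
semisimple, so they remain exact for the inertia invariants.) -/
def Additive : Prop :=
  ∀ ℓ w n {Z X U : Scheme.{0}} (f : X ⟶ Spec (CommRingCat.of ℚ)) (i : Z ⟶ X) (j : U ⟶ X),
    WCub.IsPair f i j → 𝓘.chi ℓ w n f = 𝓘.chi ℓ w n (i ≫ f) + 𝓘.chi ℓ w n (j ≫ f)

/-- `H_c^{j+2}(X × 𝔸¹) = H_c^j(X)(-1)`. -/
def Line : Prop :=
  ∀ ℓ w j n (A : Type) [CommRing A] [Algebra ℚ A], Algebra.FiniteType ℚ A →
    𝓘.tr ℓ (w + 2) (j + 2) n (str ℚ (Polynomial A)) = (p : K ℓ) ^ n * 𝓘.tr ℓ w j n (str ℚ A)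

/-- `H^j(X)` is pure of weight `j` for `X` smooth projective. -/
def Pure : Prop :=
  ∀ ℓ w j n {X : Scheme.{0}} (f : X ⟶ Spec (CommRingCat.of ℚ)), SmoothProjective f → j ≠ w →
    𝓘.tr ℓ w j n f = 0

/-- For all smooth projective `X` over `ℚ`, all `i` and `n ≥ 1` the trace of `F_p^n` on
`H^i(X_{\bar ℚ}, ℚ_ℓ)^{I_p}` is a rational number which does not depend on `ℓ ≠ p`. -/
def ForProjective : Prop :=
  ∀ {X : Scheme.{0}} (f : X ⟶ Spec (CommRingCat.of ℚ)), SmoothProjective f → ∀ (i : ℤ) (n : ℕ),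
    1 ≤ n → ∃ q : ℚ, ∀ ℓ, 𝓘.tr ℓ i i n f = (q : K ℓ)

/-- The numbers `∑_j (-1)^j tr(F_p^n | (Gr^W_w H_c^j(X))^{I_p})`, `n ≥ 1`, are rational and do not
depend on `ℓ ≠ p`, for all `w`. -/
def Indep {X : Scheme.{0}} (f : X ⟶ Spec (CommRingCat.of ℚ)) : Prop :=
  ∀ (w : ℤ) (n : ℕ), 1 ≤ n → ∃ q : ℚ, ∀ ℓ, 𝓘.chi ℓ w n f = (q : K ℓ)

/-- This holds for all hypersurfaces `g_0 t_0 + ⋯ + g_r t_r = 1` over `ℚ`, each `g_i` being of the form
`x_a x_b - x_c`, `x_a + x_b - x_c` or `x_a - 1`. -/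
def ForCubics : Prop :=
  ∀ (n r : ℕ) (g : Fin (r + 1) → MvPolynomial (Fin n) ℚ), (∀ i, IsGate {1} (g i)) →
    𝓘.Indep (str ℚ (Cubic g))

/-- This holds for all separated schemes of finite type over `ℚ`. -/
def ForSchemes : Prop :=
  ∀ {X : Scheme.{0}} (f : X ⟶ Spec (CommRingCat.of ℚ)), FT True ℚ f → 𝓘.Indep f

end Invariants

end Pool.Agent.TH131.LChi
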