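import Pool.Agent.TH131.LChi.Defs

/-!
# Independence of `ℓ` of Euler characteristics: the dévissage
-/

set_option autoImplicit false

open CategoryTheory AlgebraicGeometry

namespace Pool.Agent.TH131.LChi

open Pool.Agent.TH90.Cub Pool.Agent.TH590.JH Pool.Agent.TH131.LInd

namespace Invariants

variable {p : ℕ} {K : OtherPrimes p → Type} [∀ ℓ, Field (K ℓ)] [∀ ℓ, CharZero (K ℓ)]
  (𝓘 : Invariants K)

omit [∀ ℓ, CharZero (K ℓ)] in
lemma chi_line (hline : 𝓘.Line) (ℓ : OtherPrimes p) (w : ℤ) (n : ℕ) (A : Type) [CommRing A]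
    [Algebra ℚ A] (hA : Algebra.FiniteType ℚ A) :
    𝓘.chi ℓ (w + 2) n (str ℚ (Polynomial A)) = (p : K ℓ) ^ n * 𝓘.chi ℓ w n (str ℚ A) := by
  unfold chi
  rw [← smul_eq_mul ((p : K ℓ) ^ n), smul_finsum, ← finsum_comp_equiv (Equiv.addRight (2 : ℤ))]
  refine finsum_congr fun j => ?_
  have h1 : (Equiv.addRight (2 : ℤ)) j = j + 2 := rfl
  have h2 : (-1 : K ℓ) ^ (j + 2) = (-1) ^ j := by
    rw [zpow_add₀ (by simp)]
    simp
  rw [h1, hline ℓ w j n A hA, h2, smul_eq_mul]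
  ring

theorem indep_devissage (hf : 𝓘.Functorial) (hadd : 𝓘.Additive) :
    IsDevissage True ℚ (fun X f => 𝓘.Indep (X := X) f) where
  iso := by
    intro X Y e g hg h w n hn
    obtain ⟨q, hq⟩ := h w n hn
    exact ⟨q, fun ℓ => by rw [← hq ℓ, hf.1 ℓ w n e g hg]⟩
  empty := by
    intro X f hX w n _
    exact ⟨0, fun ℓ => by rw [hf.2 ℓ w n f hX, Rat.cast_zero]⟩
  closed := by
    intro Z X U f i j hft hi hj hr hX hU w n hn
    obtain ⟨q, hq⟩ := hX w n hn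
    obtain ⟨q', hq'⟩ := hU w n hn
    refine ⟨q - q', fun ℓ => ?_⟩
    rw [Rat.cast_sub, ← hq ℓ, ← hq' ℓ, hadd ℓ w n f i j ⟨hft, hi, hj, hr⟩, add_sub_cancel_right]
  total := by
    intro Z X U f i j hft hi hj hr hZ hU w n hn
    obtain ⟨q, hq⟩ := hZ w n hn
    obtain ⟨q', hq'⟩ := hU w n hn
    refine ⟨q + q', fun ℓ => ?_⟩
    rw [Rat.cast_add, ← hq ℓ, ← hq' ℓ, hadd ℓ w n f i j ⟨hft, hi, hj, hr⟩]

theorem indep_open (hadd : 𝓘.Additive) {Z X U : Scheme.{0}} (f : X ⟶ Spec (CommRingCat.of ℚ))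
    (i : Z ⟶ X) (j : U ⟶ X) (h : WCub.IsPair f i j) (hX : 𝓘.Indep f) (hZ : 𝓘.Indep (i ≫ f)) :
    𝓘.Indep (j ≫ f) := by
  intro w n hn
  obtain ⟨q, hq⟩ := hX w n hn
  obtain ⟨q', hq'⟩ := hZ w n hn
  refine ⟨q - q', fun ℓ => ?_⟩
  rw [Rat.cast_sub, ← hq ℓ, ← hq' ℓ, hadd ℓ w n f i j h, add_sub_cancel_left]

theorem indep_A1 (hp : p ≠ 0) (hline : 𝓘.Line) : A1 (fun X f => 𝓘.Indep (X := X) f) := by
  intro A _ _ hA
  constructor
  · intro h w n hn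
    obtain ⟨q, hq⟩ := h (w - 2) n hn
    refine ⟨(p : ℚ) ^ n * q, fun ℓ => ?_⟩
    have h1 := 𝓘.chi_line hline ℓ (w - 2) n A hA
    rw [sub_add_cancel, hq ℓ] at h1
    rw [h1]
    push_cast
    rfl
  · intro h w n hn
    obtain ⟨q, hq⟩ := h (w + 2) n hn
    refine ⟨((p : ℚ) ^ n)⁻¹ * q, fun ℓ => ?_⟩
    have h1 := 𝓘.chi_line hline ℓ w n A hA
    rw [hq ℓ] at h1
    have hp' : (p : K ℓ) ^ n ≠ 0 := pow_ne_zero _ (Nat.cast_ne_zero.2 hp)
    push_cast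
    rw [h1, inv_mul_cancel_left₀ hp']

omit [∀ ℓ, CharZero (K ℓ)] in
lemma chi_smooth (hpure : 𝓘.Pure) (ℓ : OtherPrimes p) (w : ℤ) (n : ℕ) {X : Scheme.{0}}
    (f : X ⟶ Spec (CommRingCat.of ℚ)) (hf : SmoothProjective f) :
    𝓘.chi ℓ w n f = (-1) ^ w * 𝓘.tr ℓ w w n f := by
  unfold chi
  rw [finsum_eq_single _ w]
  intro j hj
  rw [hpure ℓ w j n f hf hj, mul_zero]

/-- The main theorem. -/
theorem main (hp : p ≠ 0) (hres : WCub.Resolution) (hf : 𝓘.Functorial) (hadd : 𝓘.Additive)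
    (hline : 𝓘.Line) (hpure : 𝓘.Pure) :
    (𝓘.ForProjective ↔ 𝓘.ForCubics) ∧ (𝓘.ForProjective → 𝓘.ForSchemes) := by
  have hsm : ∀ {X : Scheme.{0}} (f : X ⟶ Spec (CommRingCat.of ℚ)), SmoothProjective f →
      (𝓘.Indep f ↔ ∀ (i : ℤ) (n : ℕ), 1 ≤ n → ∃ q : ℚ, ∀ ℓ, 𝓘.tr ℓ i i n f = (q : K ℓ)) := by
    intro X f hX
    constructor
    · intro h i n hn
      obtain ⟨q, hq⟩ := h i n hn
      refine ⟨(-1) ^ i * q, fun ℓ => ?_⟩
      have h1 := 𝓘.chi_smooth hpure ℓ i n f hX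
      rw [hq ℓ] at h1
      push_cast
      rw [h1, ← mul_assoc, ← mul_zpow]
      simp
    · intro h w n hn
      obtain ⟨q, hq⟩ := h w n hn
      refine ⟨(-1) ^ w * q, fun ℓ => ?_⟩
      rw [𝓘.chi_smooth hpure ℓ w n f hX, hq ℓ]
      push_cast
      rfl
  have key : 𝓘.ForProjective → 𝓘.ForSchemes := by
    intro h X f hft
    exact hres (fun X f => 𝓘.Indep (X := X) f) (𝓘.indep_devissage hf hadd)
      (fun f i j hp hX hZ => 𝓘.indep_open hadd f i j hp hX hZ)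
      (fun f hX => (hsm f hX).2 (h f hX)) f hft
  refine ⟨⟨fun h n r g _ => key h _ (ft_hyp g), fun h X f hX => ?_⟩, key⟩
  refine (hsm f hX).1 ?_
  exact all_of_cubics' (P := fun X f => 𝓘.Indep (X := X) f) (S := {1}) closure_one_rat
    (Set.mem_singleton 1) (𝓘.indep_devissage hf hadd) (𝓘.indep_A1 hp hline)
    (fun n r g hg => h n r g hg) f hX.ft

end Invariants

end Pool.Agent.TH131.LChi
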